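import Pool.Agent.Helper7.SV.Y2

/-!
# MP_3a126c_an, Q1 in full: the Burkholder–Šverák functional on the torus is nonnegative

`∫_{T²} L(∂f, ∂̄f) ≥ 0` for every `f ∈ W^{1,2}(T², ℂ)`.
-/

set_option autoImplicit false

open MeasureTheory

noncomputable section

namespace Pool.Agent.Results.MP_3a126c_an.AllMaps

/-- the Burkholder–Šverák function -/
def L (z w : ℂ) : ℝ := if ‖z‖ + ‖w‖ ≤ 1 then ‖z‖ ^ 2 - ‖w‖ ^ 2 else 2 * ‖z‖ - 1

/-- the unit square `[0,1]²`; with opposite sides identified it is the torus -/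
def Q : Set (ℝ × ℝ) := Set.Icc 0 1 ×ˢ Set.Icc 0 1

/-- smooth complex functions on the torus: smooth functions on the plane with period `1` in both
variables -/
def IsTest (φ : ℝ × ℝ → ℂ) : Prop :=
  ContDiff ℝ (⊤ : ℕ∞) φ ∧ (∀ x y, φ (x + 1, y) = φ (x, y)) ∧ ∀ x y, φ (x, y + 1) = φ (x, y)

/-- `g` is the distributional derivative on the torus of `f` in the direction `v` -/
def IsDistDeriv (f g : ℝ × ℝ → ℂ) (v : ℝ × ℝ) : Prop :=
  ∀ φ : ℝ × ℝ → ℂ, IsTest φ → ∫ p in Q, f p * fderiv ℝ φ p v = -∫ p in Q, g p * φ p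

/-- `f ∈ W^{1,2}(T², ℂ)`, with distributional derivatives `f_x = fx` and `f_y = fy` -/
structure IsW12 (f fx fy : ℝ × ℝ → ℂ) : Prop where
  mem : MemLp f 2 (volume.restrict Q)
  mem_x : MemLp fx 2 (volume.restrict Q)
  mem_y : MemLp fy 2 (volume.restrict Q)
  deriv_x : IsDistDeriv f fx (1, 0)
  deriv_y : IsDistDeriv f fy (0, 1)

/-- **The Burkholder–Šverák inequality on the torus.** For every `f ∈ W^{1,2}(T², ℂ)` the function
`L(∂f, ∂̄f)` is integrable and `∫_{T²} L(∂f, ∂̄f) ≥ 0`, where `∂f = (f_x - i f_y)/2` and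
`∂̄f = (f_x + i f_y)/2`. -/
theorem result : ∀ f fx fy : ℝ × ℝ → ℂ, IsW12 f fx fy →
    IntegrableOn (fun p => L ((fx p - Complex.I * fy p) / 2) ((fx p + Complex.I * fy p) / 2)) Q ∧
      0 ≤ ∫ p in Q, L ((fx p - Complex.I * fy p) / 2) ((fx p + Complex.I * fy p) / 2) := by
  intro f fx fy h
  have ht : ∀ k : Helper7.SV.Ix, IsTest (Helper7.SV.chr k) := fun k =>
    ⟨Helper7.SV.chr_smooth k, Helper7.SV.chr_per1 k, Helper7.SV.chr_per2 k⟩
  exact Helper7.SV.torus_W12 h.mem_x h.mem_y (fun k => h.deriv_x _ (ht k))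
    (fun k => h.deriv_y _ (ht k))

end Pool.Agent.Results.MP_3a126c_an.AllMaps
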